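import Pool.Agent.P.MP_c88051_gt.Im.MainT
import Pool.Agent.P.MP_c88051_gt.Im.MainE
import Pool.Agent.P.MP_c88051_gt.Im.MainD

/-! Tame topological immersions of the lens spaces `L(p,1)`, `p ≥ 3`, are not tight. -/

open Set Topology AlgebraicTopology
open scoped RealInnerProductSpace

namespace Pool.Agent.Results.MP_c88051_gt.LensImmersion

/-- The unit sphere of `ℂ²`. -/
abbrev Sphere3 : Type := Metric.sphere (0 : EuclideanSpace ℂ (Fin 2)) 1

/-- The lens space `L(p,1)`: the quotient of the unit sphere of `ℂ²` by the equivalence relation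
generated by `x ∼ exp (2 π i / p) x`, with the quotient topology. -/
abbrev Lens (p : ℕ) : Type :=
  Quot fun x y : Sphere3 => y.1 = Complex.exp (2 * Real.pi * Complex.I / p) • x.1

/-- The map `H_i(U; F) → H_i(M; F)` in singular homology induced by the inclusion is injective. -/
def InjHomology (F : Type) [Field F] {M : Type} [TopologicalSpace M] (U : Set M) (i : ℕ) : Prop :=
  Function.Injective (((singularHomologyFunctor (ModuleCat.{0} F) i).obj (ModuleCat.of F F)).map
    (TopCat.ofHom (⟨Subtype.val, continuous_subtype_val⟩ : C(U, M)))).hom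

/-- The subspace `X` is locally connected at the point `x` (connected im kleinen): every
neighbourhood of `x` contains a connected subset of `X` which is a neighbourhood of `x` in `X`. -/
def LocConnAt {M : Type} [TopologicalSpace M] (X : Set M) (x : M) : Prop :=
  ∀ n ∈ 𝓝 x, ∃ m ∈ 𝓝[X] x, m ⊆ n ∩ X ∧ IsPreconnected m

open Pool.Agent.P.MP_c88051_gt.Im in
theorem result (p : ℕ) (hp : 3 ≤ p) (F : Type) [Field F] (N : ℕ)
    (f : Lens p → EuclideanSpace ℝ (Fin N)) (hc : Continuous f) (hi : IsLocallyInjective f)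
    (ht : ∀ v : EuclideanSpace ℝ (Fin N), v ≠ 0 → ∀ x : Lens p,
      LocConnAt (f ⁻¹' {y | ⟪v, f x⟫ ≤ ⟪v, y⟫}) x ∨ LocConnAt (f ⁻¹' {y | ⟪v, y⟫ ≤ ⟪v, f x⟫}) x) :
    ∃ v : EuclideanSpace ℝ (Fin N), v ≠ 0 ∧ ∃ (c : ℝ) (i : ℕ), i ≤ 1 ∧
      ¬InjHomology F (f ⁻¹' {y | c < ⟪v, y⟫}) i := by
  by_contra h
  have : NeZero p := ⟨by omega⟩
  have H := sys_of_tight t_LENS t_BR0 t_BR1 t_BR2 p hp F N f hc (inj_of_loc t_LENS p hi)
    fun v hv c i hi' => by_contra fun k => h ⟨v, hv, c, i, hi', k⟩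
  exact t_FIN H (t_G6 H (tame_of_lc t_BRS t_BR3 p N f ht))

end Pool.Agent.Results.MP_c88051_gt.LensImmersion
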