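import Pool.Agent.P.MP_c88051_gt.Im.MainS
import Pool.Agent.P.MP_c88051_gt.Im.MainE
import Pool.Agent.P.MP_c88051_gt.Im.MainD
import Pool.Agent.P.MP_c88051_gt.Im.MainM

/-! Smooth immersions of the lens spaces `L(p,1)`, `p ≥ 3`, are not tight. -/

open Set AlgebraicTopology
open scoped Manifold ContDiff RealInnerProductSpace

namespace Pool.Agent.Results.MP_c88051_gt.LensSmooth

/-- The unit sphere of `ℂ²`. -/
abbrev Sphere3 : Type := Metric.sphere (0 : EuclideanSpace ℂ (Fin 2)) 1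

/-- The lens space `L(p,1)`: the quotient of the unit sphere of `ℂ²` by the equivalence relation
generated by `x ∼ exp (2 π i / p) x`, with the quotient topology. -/
abbrev Lens (p : ℕ) : Type :=
  Quot fun x y : Sphere3 => y.1 = Complex.exp (2 * Real.pi * Complex.I / p) • x.1

/-- The map `H_i(U; F) → H_i(M; F)` in singular homology induced by the inclusion is injective. -/
def InjHomology (F : Type) [Field F] {M : Type} [TopologicalSpace M] (U : Set M) (i : ℕ) : Prop :=
  Function.Injective (((singularHomologyFunctor (ModuleCat.{0} F) i).obj (ModuleCat.of F F)).map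
    (TopCat.ofHom (⟨Subtype.val, continuous_subtype_val⟩ : C(U, M)))).hom

/-- `f` is smooth and its differential is injective at every point; `E` is the model space. -/
def SmoothImmersion (E : Type) [NormedAddCommGroup E] [NormedSpace ℝ E] {M V : Type}
    [TopologicalSpace M] [ChartedSpace E M] [NormedAddCommGroup V] [NormedSpace ℝ V]
    (f : M → V) : Prop :=
  ContMDiff 𝓘(ℝ, E) 𝓘(ℝ, V) ∞ f ∧ ∀ x, Function.Injective (mfderiv 𝓘(ℝ, E) 𝓘(ℝ, V) f x)

open Pool.Agent.P.MP_c88051_gt.Im in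
theorem result (p : ℕ) (hp : 3 ≤ p) (F : Type) [Field F] (N : ℕ)
    [ChartedSpace (EuclideanSpace ℝ (Fin 3)) (Lens p)] [IsManifold (𝓡 3) ∞ (Lens p)]
    (f : Lens p → EuclideanSpace ℝ (Fin N))
    (hf : SmoothImmersion (EuclideanSpace ℝ (Fin 3)) f) :
    ∃ v : EuclideanSpace ℝ (Fin N), v ≠ 0 ∧ ∃ (c : ℝ) (i : ℕ), i ≤ 1 ∧
      ¬InjHomology F (f ⁻¹' {y | c < ⟪v, y⟫}) i := by
  by_contra h
  have : NeZero p := ⟨by omega⟩
  have hs := smo_of_mfd t_LENS p hf.1 hf.2
  have H := sys_of_tight t_LENS t_BR0 t_BR1 t_BR2 p hp F N f hf.1.continuous (t_SLOC _ hs)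
    fun v hv c i hi' => by_contra fun k => h ⟨v, hv, c, i, hi', k⟩
  obtain ⟨Z, z1, z2, z3⟩ := t_ZZ _ hs
  refine t_FIN H (t_G6S H Z z1 z2 fun a h1 h2 h3 h4 => by_contra fun k => ?_)
  exact (t_LA H a (z3 a k).1 h1 h2 h3 h4).ne_empty (z3 a k).2

end Pool.Agent.Results.MP_c88051_gt.LensSmooth
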