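import Pool.Agent.P.MP_c88051_gt.Tors
import Pool.Agent.Lib.Helper83.Bridge

/-! A smooth tight hypersurface in Euclidean four-space with three-torsion in its homology. -/

open Set AlgebraicTopology
open scoped Manifold ContDiff RealInnerProductSpace

namespace Pool.Agent.Results.MP_c88051_gt.TightOddTorsion

/-- The map `H_i(U; F) → H_i(M; F)` in singular homology induced by the inclusion is injective. -/
def InjHomology (F : Type) [Field F] {M : Type} [TopologicalSpace M] (U : Set M) (i : ℕ) : Prop :=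
  Function.Injective (((singularHomologyFunctor (ModuleCat.{0} F) i).obj (ModuleCat.of F F)).map
    (TopCat.ofHom (⟨Subtype.val, continuous_subtype_val⟩ : C(U, M)))).hom

/-- For every open half-space `h = {y | c < ⟪v, y⟫}` with `v ≠ 0` and every `i`, the map
`H_i(f ⁻¹ h; F) → H_i(M; F)` induced by the inclusion is injective. -/
def Tight (F : Type) [Field F] {M V : Type} [TopologicalSpace M] [NormedAddCommGroup V]
    [InnerProductSpace ℝ V] (f : M → V) : Prop :=
  ∀ v : V, v ≠ 0 → ∀ (c : ℝ) (i : ℕ), InjHomology F (f ⁻¹' {y | c < ⟪v, y⟫}) i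

/-- The integral singular homology group `H_i(M; ℤ)` contains an element of order `p`. -/
def HasTorsion (M : Type) [TopologicalSpace M] (i p : ℕ) : Prop :=
  ∃ x : ((singularHomologyFunctor (ModuleCat.{0} ℤ) i).obj (ModuleCat.of ℤ ℤ)).obj (TopCat.of M),
    addOrderOf x = p

/-- `f` is smooth and its differential is injective at every point; `E` is the model space. -/
def SmoothImmersion (E : Type) [NormedAddCommGroup E] [NormedSpace ℝ E] {M V : Type}
    [TopologicalSpace M] [ChartedSpace E M] [NormedAddCommGroup V] [NormedSpace ℝ V]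
    (f : M → V) : Prop :=
  ContMDiff 𝓘(ℝ, E) 𝓘(ℝ, V) ∞ f ∧ ∀ x, Function.Injective (mfderiv 𝓘(ℝ, E) 𝓘(ℝ, V) f x)

open Pool.Agent.P.MP_c88051_gt Pool.Agent.Lib.Helper83 in
theorem result : ∃ (M : Type) (_ : TopologicalSpace M)
    (_ : ChartedSpace (EuclideanSpace ℝ (Fin 3)) M), IsManifold (𝓡 3) ∞ M ∧ T2Space M ∧
    CompactSpace M ∧ ConnectedSpace M ∧ HasTorsion M 1 3 ∧
    ∃ f : M → EuclideanSpace ℝ (Fin 4), SmoothImmersion (EuclideanSpace ℝ (Fin 3)) f ∧
      Tight (ZMod 2) f := by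
  obtain ⟨K, hK0, hK⟩ := MM.exists_K
  have h0 : 0 < 1 / (4 * K) := by positivity
  have h1 : 1 / (4 * K) * K < 1 := by field_simp; norm_num
  have h2 : 2 * K * (1 / (4 * K)) < 1 := by field_simp; norm_num
  let c : EuclideanSpace ℝ (Fin 3) ≃L[ℝ] (ℝ × ℝ) × ℝ := ContinuousLinearEquiv.ofFinrankEq (by simp)
  let y₀ : MM.T := Classical.arbitrary _
  obtain ⟨a1, a2, a3⟩ := package c MM.CT y₀ MM.CT_cov (MM.F (1 / (4 * K))) (MM.imm hK h0 h2)
  have hc : IsPreconnected (univ : Set MM.T) := by simpa using MM.closed_T hK h0 h1 0 0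
  have : PreconnectedSpace MM.T := ⟨hc⟩
  refine ⟨MM.T, inferInstance, charted c MM.CT y₀ MM.CT_cov, a1, inferInstance, inferInstance,
    ⟨inferInstance⟩, ?_, fun y => MM.F (1 / (4 * K)) y, ⟨a2, a3⟩, fun v _ t i => ?_⟩
  · obtain ⟨c₆, b1, b2⟩ := root_coc (R := ℤ) (AddMonoidHom.id (ZMod 6))
    have hq : IsCoc (Bd ℤ (univ : Set MM.T) 2).mkQ univ := fun e he =>
      (Submodule.Quotient.mk_eq_zero _).2 (bd_mem_Bd he)
    have b3 := twelve hq (m := (Bd ℤ univ 2).mkQ (MM.B.loop ℤ y₀)) fun y =>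
      MM.B.loop_eq hq (N := univ) (subset_univ _) (CB.joined_over
        (locC_of (univ_charts MM.C MM.cov)) MM.exists_frame isOpen_univ
        (by simpa using MM.tpp 0 0) trivial trivial)
    have : Fact (Nat.Prime 3) := Nat.fact_prime_three
    refine exists_order (n := 0) (c := 4 • MM.B.loop ℤ y₀) (nsmul_mem (MM.B.loop_mem y₀) 4)
      (by rw [map_nsmul, MM.B.bd_loop, nsmul_zero]) (fun h => ?_) ?_
    · have := b1.of_Bd h
      rw [map_nsmul, b2] at this
      revert this
      decide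
    · rw [← mul_nsmul, ← Submodule.Quotient.mk_eq_zero, ← Submodule.mkQ_apply, map_nsmul]
      exact b3
  · obtain ⟨c₂, b1, b2⟩ := root_coc (R := ZMod 2)
      (ZMod.castHom (show 2 ∣ 6 by norm_num) (ZMod 2)).toAddMonoidHom
    exact injective_of_chain _ i (MM.tight hK h0 h1 b1 (fun y => (b2 y).trans
      (map_one (ZMod.castHom (show 2 ∣ 6 by norm_num) (ZMod 2)))) v t i)

end Pool.Agent.Results.MP_c88051_gt.TightOddTorsion
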